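import Pool.Agent.Helper52.Hemi.Goals

/-!
Packet H2 of MP_7aba51_co: the Artin–Schreier transform of the cubic sum.
-/

set_option autoImplicit false

open Classical

namespace Pool.Agent.Helper91.Hemi

open Pool.Agent.Helper52.Hemi

theorem sum_comp_fiber {k : Type} [Fintype k] (T : k → k) (F : k → ℂ) :
    ∑ v, F (T v) = ∑ u, ((Finset.univ.filter (fun v => T v = u)).card : ℂ) * F u := by
  rw [← Finset.sum_fiberwise Finset.univ T (fun v => F (T v))]
  refine Finset.sum_congr rfl (fun u _ => ?_)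
  rw [Finset.sum_congr rfl (g := fun _ => F u)
    (fun v hv => by rw [(Finset.mem_filter.1 hv).2]), Finset.sum_const, nsmul_eq_mul]

/-- number of solutions of the Artin–Schreier equation -/
theorem card_artinSchreier {k : Type} [Field k] [Fintype k] (h3 : (3 : k) = 0)
    (ψ : AddChar k ℂ) (hψ : ψ ≠ 1) (hinv : ∀ x, ψ (x ^ 3) = ψ x) (u : k) :
    ((Finset.univ.filter (fun v : k => v ^ 3 - v = u)).card : ℂ) = 1 + ψ u + ψ (-u) := by
  have hcube : ∀ x, ψ x ^ 3 = 1 := by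
    intro x
    rw [← AddChar.map_nsmul_eq_pow, nsmul_eq_mul]
    have : ((3 : ℕ) : k) * x = 0 := by push_cast; rw [h3, zero_mul]
    rw [this, AddChar.map_zero_eq_one]
  have hneg : ∀ x, ψ (-x) = ψ x ^ 2 := by
    intro x
    have h1 : ψ x * ψ (-x) = 1 := by
      rw [← AddChar.map_add_eq_mul, add_neg_cancel, AddChar.map_zero_eq_one]
    have h2 : ψ x ≠ 0 := left_ne_zero_of_mul_eq_one h1
    apply mul_left_cancel₀ h2
    rw [h1, ← hcube x]; ring
  -- the right hand side is `0` or `3`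
  have hR : ∀ x, (1 + ψ x + ψ (-x) = 3 ∧ ψ x = 1) ∨ (1 + ψ x + ψ (-x) = 0) := by
    intro x
    have h1 : (ψ x - 1) * (1 + ψ x + ψ x ^ 2) = 0 := by linear_combination hcube x
    rcases mul_eq_zero.1 h1 with h | h
    · left
      have h' : ψ x = 1 := by linear_combination h
      refine ⟨?_, h'⟩
      rw [hneg, h']; norm_num
    · right
      rw [hneg]; exact h
  set N : k → ℕ := fun u => (Finset.univ.filter (fun v : k => v ^ 3 - v = u)).card with hN
  have hN3 : ∀ x, N x ≤ 3 := by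
    intro x
    by_cases hne : (Finset.univ.filter (fun v : k => v ^ 3 - v = x)).Nonempty
    · obtain ⟨v₀, hv₀⟩ := hne
      have hv₀' := (Finset.mem_filter.1 hv₀).2
      have hsub : (Finset.univ.filter (fun v : k => v ^ 3 - v = x)) ⊆ {v₀, v₀ + 1, v₀ - 1} := by
        intro v hv
        have hv' := (Finset.mem_filter.1 hv).2
        have h1 : (v - v₀) * ((v - (v₀ + 1)) * (v - (v₀ - 1))) = 0 := by
          linear_combination hv' - hv₀' - (v ^ 2 * v₀ - v * v₀ ^ 2) * h3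
        simp only [Finset.mem_insert, Finset.mem_singleton]
        rcases mul_eq_zero.1 h1 with h | h
        · left; linear_combination h
        rcases mul_eq_zero.1 h with h | h
        · right; left; linear_combination h
        · right; right; linear_combination h
      exact (Finset.card_le_card hsub).trans Finset.card_le_three
    · rw [Finset.not_nonempty_iff_eq_empty] at hne
      simp [hN, hne]
  have hle : ∀ x ∈ (Finset.univ : Finset k), (N x : ℝ) ≤ (1 + ψ x + ψ (-x)).re := by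
    intro x _
    by_cases hne : (Finset.univ.filter (fun v : k => v ^ 3 - v = x)).Nonempty
    · obtain ⟨v₀, hv₀⟩ := hne
      have hv₀' := (Finset.mem_filter.1 hv₀).2
      have h1 : ψ x = 1 := by
        rw [← hv₀', sub_eq_add_neg, AddChar.map_add_eq_mul, hinv, ← AddChar.map_add_eq_mul,
          add_neg_cancel, AddChar.map_zero_eq_one]
      have h2 : (1 + ψ x + ψ (-x)).re = 3 := by
        rw [hneg, h1]; norm_num
      rw [h2]
      exact_mod_cast hN3 x
    · rw [Finset.not_nonempty_iff_eq_empty] at hne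
      have h0 : N x = 0 := by simp [hN, hne]
      rw [h0]
      rcases hR x with ⟨h, -⟩ | h
      · rw [h]; norm_num
      · rw [h]; norm_num
  have hψ0 : ψ ≠ 0 := hψ
  have hsum0 : ∑ x, ψ x = 0 := by
    rw [AddChar.sum_eq_ite, if_neg hψ0]
  have hsum0' : ∑ x, ψ (-x) = 0 := by
    rw [← hsum0]
    exact Equiv.sum_comp (Equiv.neg k) (fun x => ψ x)
  have hsumR : ∑ x, (1 + ψ x + ψ (-x)).re = Fintype.card k := by
    rw [← Complex.re_sum, Finset.sum_add_distrib, Finset.sum_add_distrib, hsum0, hsum0']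
    simp
  have hsumN : ∑ x, (N x : ℝ) = Fintype.card k := by
    have h1 := Finset.card_eq_sum_card_fiberwise (s := (Finset.univ : Finset k))
      (t := (Finset.univ : Finset k)) (f := fun v : k => v ^ 3 - v) (fun _ _ => Finset.mem_univ _)
    rw [Finset.card_univ] at h1
    rw [h1]
    push_cast
    rfl
  have heq := (Finset.sum_eq_sum_iff_of_le hle).1 (by rw [hsumN, hsumR])
  have hu := heq u (Finset.mem_univ _)
  -- conclude
  change ((N u : ℕ) : ℂ) = _
  rcases hR u with ⟨h, -⟩ | h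
  · rw [h] at hu ⊢
    have : (N u : ℝ) = 3 := by rw [hu]; norm_num
    exact_mod_cast this
  · rw [h] at hu ⊢
    have : (N u : ℝ) = 0 := by rw [hu]; norm_num
    exact_mod_cast this

theorem goalAS : GoalAS := by
  intro k _ _ h3 ψ hψ hinv t κ ht
  have hch : ringChar k ≠ 2 := by
    intro h
    have h2 : ((2 : ℕ) : k) = 0 := by
      rw [ringChar.spec, h]
    have : (1 : k) = 0 := by
      push_cast at h2
      linear_combination h3 - h2
    exact one_ne_zero this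
  have ht3 : t ^ 3 ≠ 0 := pow_ne_zero 3 ht
  -- sums over squares
  have hsq : ∀ f : k → ℂ, ∑ z, f z = 0 →
      ∑ z, f z * ((quadraticChar k z : ℤ) : ℂ) = ∑ r, f (r ^ 2) := by
    intro f hf
    rw [sum_comp_fiber (fun r : k => r ^ 2) f]
    have e : ∀ u : k, ((Finset.univ.filter (fun v : k => v ^ 2 = u)).card : ℂ) * f u =
        f u * ((quadraticChar k u : ℤ) : ℂ) + f u := by
      intro u
      have h1 := quadraticChar_card_sqrts hch u
      have h2 : ((Finset.univ.filter (fun v : k => v ^ 2 = u)).card : ℤ) =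
          quadraticChar k u + 1 := by
        rw [← h1]
        congr 2
        ext x
        simp
      have h3' : ((Finset.univ.filter (fun v : k => v ^ 2 = u)).card : ℂ) =
          ((quadraticChar k u : ℤ) : ℂ) + 1 := by
        exact_mod_cast h2
      rw [h3']; ring
    rw [Finset.sum_congr rfl (fun u _ => e u), Finset.sum_add_distrib, hf, add_zero]
  -- nontrivial characters have vanishing sum
  have hzero : ∀ a b : k, a ≠ 0 → ∑ z, ψ (a * z + b) = 0 := by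
    intro a b ha
    have e : ∑ z, ψ (a * z + b) = ∑ z, ψ z :=
      Equiv.sum_comp ((Equiv.mulLeft₀ a ha).trans (Equiv.addRight b)) (fun z => ψ z)
    rw [e, AddChar.sum_eq_ite, if_neg]
    exact hψ
  have hinv3 : (t ^ 3)⁻¹ ≠ 0 := inv_ne_zero ht3
  -- first transformation
  have h1 : ((∑ v : k, quadraticChar k (v ^ 3 - t ^ 2 * v + κ ^ 2) : ℤ) : ℂ) =
      ∑ u : k, (1 + ψ u + ψ (-u)) * ((quadraticChar k (t ^ 3 * u + κ ^ 2) : ℤ) : ℂ) := by
    push_cast
    have e1 : ∑ v : k, ((quadraticChar k (v ^ 3 - t ^ 2 * v + κ ^ 2) : ℤ) : ℂ) =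
        ∑ v : k, ((quadraticChar k (t ^ 3 * (v ^ 3 - v) + κ ^ 2) : ℤ) : ℂ) := by
      rw [← Equiv.sum_comp (Equiv.mulLeft₀ t ht)
        (fun v => ((quadraticChar k (v ^ 3 - t ^ 2 * v + κ ^ 2) : ℤ) : ℂ))]
      refine Finset.sum_congr rfl (fun v _ => ?_)
      simp only [Equiv.mulLeft₀_apply]
      congr 3
      ring
    rw [e1, sum_comp_fiber (fun v : k => v ^ 3 - v)
      (fun u => ((quadraticChar k (t ^ 3 * u + κ ^ 2) : ℤ) : ℂ))]
    refine Finset.sum_congr rfl (fun u _ => ?_)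
    rw [card_artinSchreier h3 ψ hψ hinv u]
  -- change of variable z = t^3 u + κ^2
  have h2 : ∑ u : k, (1 + ψ u + ψ (-u)) * ((quadraticChar k (t ^ 3 * u + κ ^ 2) : ℤ) : ℂ) =
      ∑ z : k, (1 + ψ ((t ^ 3)⁻¹ * z + -((t ^ 3)⁻¹ * κ ^ 2)) +
        ψ (-(t ^ 3)⁻¹ * z + (t ^ 3)⁻¹ * κ ^ 2)) * ((quadraticChar k z : ℤ) : ℂ) := by
    rw [← Equiv.sum_comp ((Equiv.mulLeft₀ (t ^ 3) ht3).trans (Equiv.addRight (κ ^ 2)))
      (fun z => (1 + ψ ((t ^ 3)⁻¹ * z + -((t ^ 3)⁻¹ * κ ^ 2)) +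
        ψ (-(t ^ 3)⁻¹ * z + (t ^ 3)⁻¹ * κ ^ 2)) * ((quadraticChar k z : ℤ) : ℂ))]
    refine Finset.sum_congr rfl (fun u _ => ?_)
    simp only [Equiv.trans_apply, Equiv.mulLeft₀_apply, Equiv.coe_addRight]
    have e1 : (t ^ 3)⁻¹ * (t ^ 3 * u + κ ^ 2) + -((t ^ 3)⁻¹ * κ ^ 2) = u := by
      field_simp; ring
    have e2 : -(t ^ 3)⁻¹ * (t ^ 3 * u + κ ^ 2) + (t ^ 3)⁻¹ * κ ^ 2 = -u := by
      field_simp; ring
    rw [e1, e2]
  have h0 : ∑ z : k, ((quadraticChar k z : ℤ) : ℂ) = 0 := by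
    have := quadraticChar_sum_zero hch
    exact_mod_cast this
  have h4 : ∑ z : k, (1 + ψ ((t ^ 3)⁻¹ * z + -((t ^ 3)⁻¹ * κ ^ 2)) +
        ψ (-(t ^ 3)⁻¹ * z + (t ^ 3)⁻¹ * κ ^ 2)) * ((quadraticChar k z : ℤ) : ℂ) =
      ∑ r : k, ψ ((t ^ 3)⁻¹ * r ^ 2 + -((t ^ 3)⁻¹ * κ ^ 2)) +
      ∑ r : k, ψ (-(t ^ 3)⁻¹ * r ^ 2 + (t ^ 3)⁻¹ * κ ^ 2) := by
    have e : ∀ z : k, (1 + ψ ((t ^ 3)⁻¹ * z + -((t ^ 3)⁻¹ * κ ^ 2)) +
        ψ (-(t ^ 3)⁻¹ * z + (t ^ 3)⁻¹ * κ ^ 2)) * ((quadraticChar k z : ℤ) : ℂ) =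
        ((quadraticChar k z : ℤ) : ℂ) +
        (ψ ((t ^ 3)⁻¹ * z + -((t ^ 3)⁻¹ * κ ^ 2)) * ((quadraticChar k z : ℤ) : ℂ) +
        ψ (-(t ^ 3)⁻¹ * z + (t ^ 3)⁻¹ * κ ^ 2) * ((quadraticChar k z : ℤ) : ℂ)) := by
      intro z; ring
    rw [Finset.sum_congr rfl (fun z _ => e z), Finset.sum_add_distrib, h0, zero_add,
      Finset.sum_add_distrib,
      hsq (fun z => ψ ((t ^ 3)⁻¹ * z + -((t ^ 3)⁻¹ * κ ^ 2))) (hzero _ _ hinv3),
      hsq (fun z => ψ (-(t ^ 3)⁻¹ * z + (t ^ 3)⁻¹ * κ ^ 2)) (hzero _ _ (neg_ne_zero.2 hinv3))]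
  rw [h1, h2, h4]
  congr 1
  · rw [← Equiv.sum_comp ((Equiv.mulLeft₀ (-(t ^ 3)) (neg_ne_zero.2 ht3)).trans
      (Equiv.addRight κ)) (fun r => ψ ((t ^ 3)⁻¹ * r ^ 2 + -((t ^ 3)⁻¹ * κ ^ 2)))]
    refine Finset.sum_congr rfl (fun r _ => ?_)
    simp only [Equiv.trans_apply, Equiv.mulLeft₀_apply, Equiv.coe_addRight]
    congr 1
    field_simp
    linear_combination (-(κ * r * t ^ 3)) * h3
  · rw [← Equiv.sum_comp ((Equiv.mulLeft₀ (t ^ 3) ht3).trans
      (Equiv.addRight κ)) (fun r => ψ (-(t ^ 3)⁻¹ * r ^ 2 + (t ^ 3)⁻¹ * κ ^ 2))]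
    refine Finset.sum_congr rfl (fun r _ => ?_)
    simp only [Equiv.trans_apply, Equiv.mulLeft₀_apply, Equiv.coe_addRight]
    congr 1
    field_simp
    linear_combination (-(κ * r * t ^ 3)) * h3

end Pool.Agent.Helper91.Hemi
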