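import Pool.Agent.Helper52.Hemi.Goals

/-!
Packet H3 of MP_7aba51_co: divisibility of quadratic exponential sums over `F_3`.
-/

set_option autoImplicit false

open Classical

namespace Pool.Agent.Helper91.Hemi

open Pool.Agent.Helper52.Hemi

theorem eisen_descent (m : ℕ) : ∀ X Y : ℤ, (3 : ℤ) ^ (2 * m) ∣ X ^ 2 - X * Y + Y ^ 2 →
    (3 : ℤ) ^ m ∣ X ∧ (3 : ℤ) ^ m ∣ Y := by
  induction m with
  | zero => intro X Y _; simp
  | succ m ih =>
    intro X Y h
    have h9 : (9 : ℤ) ∣ X ^ 2 - X * Y + Y ^ 2 := by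
      refine dvd_trans ?_ h
      rw [show 2 * (m + 1) = 2 + 2 * m by ring, pow_add]
      exact ⟨3 ^ (2 * m), by norm_num⟩
    have hz : ∀ x y : ZMod 9, x ^ 2 - x * y + y ^ 2 = 0 → 3 * x = 0 ∧ 3 * y = 0 := by decide
    have h0 : ((X : ZMod 9)) ^ 2 - (X : ZMod 9) * (Y : ZMod 9) + (Y : ZMod 9) ^ 2 = 0 := by
      have := (ZMod.intCast_zmod_eq_zero_iff_dvd (X ^ 2 - X * Y + Y ^ 2) 9).2 (by exact_mod_cast h9)
      push_cast at this
      exact this
    obtain ⟨hx, hy⟩ := hz _ _ h0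
    have hdx : (3 : ℤ) ∣ X := by
      have : ((3 * X : ℤ) : ZMod 9) = 0 := by push_cast; exact hx
      have h1 := (ZMod.intCast_zmod_eq_zero_iff_dvd _ 9).1 this
      push_cast at h1
      omega
    have hdy : (3 : ℤ) ∣ Y := by
      have : ((3 * Y : ℤ) : ZMod 9) = 0 := by push_cast; exact hy
      have h1 := (ZMod.intCast_zmod_eq_zero_iff_dvd _ 9).1 this
      push_cast at h1
      omega
    obtain ⟨X', rfl⟩ := hdx
    obtain ⟨Y', rfl⟩ := hdy
    have h' : (3 : ℤ) ^ (2 * m) ∣ X' ^ 2 - X' * Y' + Y' ^ 2 := by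
      have h2 : (9 : ℤ) * 3 ^ (2 * m) ∣ 9 * (X' ^ 2 - X' * Y' + Y' ^ 2) := by
        have e1 : (9 : ℤ) * 3 ^ (2 * m) = 3 ^ (2 * (m + 1)) := by
          rw [show 2 * (m + 1) = 2 + 2 * m by ring, pow_add]; norm_num
        have e2 : (9 : ℤ) * (X' ^ 2 - X' * Y' + Y' ^ 2) =
            (3 * X') ^ 2 - 3 * X' * (3 * Y') + (3 * Y') ^ 2 := by ring
        rw [e1, e2]; exact h
      exact (mul_dvd_mul_iff_left (by norm_num)).1 h2
    obtain ⟨a, b⟩ := ih X' Y' h'
    rw [pow_succ']
    exact ⟨mul_dvd_mul_left 3 a, mul_dvd_mul_left 3 b⟩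

theorem goalDiv : GoalDiv := by
  intro E _ _ h3 m hcard ψ w hw α β γ
  -- values of ψ
  have hcube : ∀ x, ψ x ^ 3 = 1 := by
    intro x
    rw [← AddChar.map_nsmul_eq_pow, nsmul_eq_mul]
    have : ((3 : ℕ) : E) * x = 0 := by push_cast; rw [h3, zero_mul]
    rw [this, AddChar.map_zero_eq_one]
  have hval : ∀ x, ∃ a b : ℤ, ψ x = a + b * w := by
    intro x
    have h1 : (ψ x - 1) * ((ψ x - w) * (ψ x + 1 + w)) = 0 := by
      linear_combination hcube x - (ψ x - 1) * hw
    rcases mul_eq_zero.1 h1 with h | h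
    · exact ⟨1, 0, by push_cast; linear_combination h⟩
    rcases mul_eq_zero.1 h with h | h
    · exact ⟨0, 1, by push_cast; linear_combination h⟩
    · exact ⟨-1, -1, by push_cast; linear_combination h⟩
  choose a b hab using hval
  -- w is not real
  have hwim : w.im ≠ 0 := by
    intro h
    have h1 : w = (w.re : ℂ) := by
      apply Complex.ext <;> simp [h]
    rw [h1] at hw
    have h2 : w.re ^ 2 + w.re + 1 = 0 := by exact_mod_cast hw
    nlinarith [sq_nonneg (w.re + 1 / 2)]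
  have hconj : (starRingEnd ℂ) w = -1 - w := by
    have h1 : ((starRingEnd ℂ) w - w) * ((starRingEnd ℂ) w + 1 + w) = 0 := by
      have h2 : (starRingEnd ℂ) w ^ 2 + (starRingEnd ℂ) w + 1 = 0 := by
        have := congrArg (starRingEnd ℂ) hw
        simpa using this
      linear_combination h2 - hw
    rcases mul_eq_zero.1 h1 with h | h
    · exfalso
      have := congrArg Complex.im h
      simp only [Complex.sub_im, Complex.conj_im, Complex.zero_im] at this
      apply hwim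
      linarith
    · linear_combination h
  set P : E → E := fun y => α * y ^ 4 + β * y ^ 2 + γ * y with hP
  set g : ℂ := ∑ y : E, ψ (P y) with hg
  set X : ℤ := ∑ y : E, a (P y) with hX
  set Y : ℤ := ∑ y : E, b (P y) with hY
  have hgXY : g = X + Y * w := by
    rw [hg, hX, hY]
    push_cast
    rw [Finset.sum_mul, ← Finset.sum_add_distrib]
    exact Finset.sum_congr rfl (fun y _ => hab _)
  have hgg : g * (starRingEnd ℂ) g = ((X ^ 2 - X * Y + Y ^ 2 : ℤ) : ℂ) := by
    rw [hgXY]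
    simp only [map_add, map_mul, hconj, map_intCast]
    push_cast
    linear_combination (-(Y : ℂ) ^ 2) * hw
  -- the bilinear form
  let bf : E → (E →+ E) := fun y =>
    { toFun := fun z => α * (y ^ 3 * z + y * z ^ 3) + 2 * β * y * z
      map_zero' := by ring
      map_add' := by
        intro z z'
        linear_combination (α * y * (z ^ 2 * z' + z * z' ^ 2)) * h3 }
  have hbf : ∀ y z, P (y + z) = P z + (P y + bf y z) := by
    intro y z
    simp only [hP, bf, AddMonoidHom.coe_mk, ZeroHom.coe_mk]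
    linear_combination (α * (y ^ 3 * z + 2 * y ^ 2 * z ^ 2 + y * z ^ 3)) * h3
  have hsum : g * (starRingEnd ℂ) g = ∑ y : E, ψ (P y) * ∑ z : E, ψ (bf y z) := by
    calc g * (starRingEnd ℂ) g = ∑ y : E, ∑ z : E, ψ (P y) * ψ (- P z) := by
          rw [hg, map_sum, Finset.sum_mul_sum]
          refine Finset.sum_congr rfl (fun y _ => Finset.sum_congr rfl (fun z _ => ?_))
          rw [AddChar.map_neg_eq_conj]
      _ = ∑ z : E, ∑ y : E, ψ (P y) * ψ (- P z) := Finset.sum_comm
      _ = ∑ z : E, ∑ y : E, ψ (P (y + z)) * ψ (- P z) := by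
          refine Finset.sum_congr rfl (fun z _ => ?_)
          exact (Equiv.sum_comp (Equiv.addRight z) (fun y => ψ (P y) * ψ (- P z))).symm
      _ = ∑ z : E, ∑ y : E, ψ (P y) * ψ (bf y z) := by
          refine Finset.sum_congr rfl (fun z _ => Finset.sum_congr rfl (fun y _ => ?_))
          rw [← AddChar.map_add_eq_mul, ← AddChar.map_add_eq_mul]
          congr 1
          rw [hbf]; ring
      _ = ∑ y : E, ∑ z : E, ψ (P y) * ψ (bf y z) := Finset.sum_comm
      _ = _ := by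
          refine Finset.sum_congr rfl (fun y _ => ?_)
          rw [Finset.mul_sum]
  have hinner : ∀ y : E, ∃ c : ℤ, ∑ z : E, ψ (bf y z) = (Fintype.card E : ℂ) * c := by
    intro y
    have h1 := AddChar.sum_eq_ite (ψ.compAddMonoidHom (bf y))
    by_cases h : ψ.compAddMonoidHom (bf y) = 0
    · rw [if_pos h] at h1
      exact ⟨1, by simpa using h1⟩
    · rw [if_neg h] at h1
      exact ⟨0, by simpa using h1⟩
  choose c hc using hinner
  have hfin : ((X ^ 2 - X * Y + Y ^ 2 : ℤ) : ℂ) =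
      (3 : ℂ) ^ (2 * m) * ((∑ y, a (P y) * c y : ℤ) + (∑ y, b (P y) * c y : ℤ) * w) := by
    rw [← hgg, hsum]
    have e : ∀ y, ψ (P y) * ∑ z : E, ψ (bf y z) =
        (3 : ℂ) ^ (2 * m) * (((a (P y) * c y : ℤ) : ℂ) + ((b (P y) * c y : ℤ) : ℂ) * w) := by
      intro y
      rw [hc, hcard, hab (P y)]
      push_cast
      ring
    rw [Finset.sum_congr rfl (fun y _ => e y), ← Finset.mul_sum, Finset.sum_add_distrib,
      ← Finset.sum_mul]
    push_cast
    rfl
  set A' : ℤ := ∑ y, a (P y) * c y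
  set B' : ℤ := ∑ y, b (P y) * c y
  have hfin2 : ((X ^ 2 - X * Y + Y ^ 2 : ℤ) : ℂ) =
      (((3 : ℤ) ^ (2 * m) * A' : ℤ) : ℂ) + (((3 : ℤ) ^ (2 * m) * B' : ℤ) : ℂ) * w := by
    rw [hfin]; push_cast; ring
  have hB : (3 : ℤ) ^ (2 * m) * B' = 0 := by
    have h1 := congrArg Complex.im hfin2
    simp only [Complex.add_im, Complex.mul_im, Complex.intCast_im, Complex.intCast_re,
      zero_mul, add_zero, zero_add] at h1
    have h2 := (mul_eq_zero.1 h1.symm).resolve_right hwim
    exact_mod_cast h2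
  have hA : X ^ 2 - X * Y + Y ^ 2 = (3 : ℤ) ^ (2 * m) * A' := by
    rw [hB] at hfin2
    rw [Int.cast_zero, zero_mul, add_zero] at hfin2
    exact_mod_cast hfin2
  obtain ⟨⟨A, hA1⟩, ⟨B, hB1⟩⟩ := eisen_descent m X Y ⟨A', hA⟩
  refine ⟨A, B, ?_⟩
  rw [hgXY, hA1, hB1]
  push_cast
  ring

end Pool.Agent.Helper91.Hemi
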